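import Pool.Agent.helper34.DT.Spec

/-!
# Density theorem, BP: the exponential of a skew endomorphism preserves `ψ`
-/

namespace Pool.Agent.HC.DT

open Pool.Agent.HC

noncomputable section

theorem BP : BP_stmt := by
  intro W _ _ _ ψ X hX v w
  have : FiniteDimensional ℝ W := FiniteDimensional.complexToReal W
  have : CompleteSpace W := FiniteDimensional.complete ℂ W
  let B : W →L[ℝ] (W →L[ℝ] ℝ) :=
    LinearMap.toContinuousLinearMap
      ((LinearMap.toContinuousLinearMap : (W →ₗ[ℝ] ℝ) ≃ₗ[ℝ] (W →L[ℝ] ℝ)).toLinearMap ∘ₗ ψ)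
  have hB : ∀ a b, B a b = ψ a b := fun a b => rfl
  have hE : ∀ t : ℝ, HasDerivAt (fun u : ℝ => NormedSpace.exp (u • X))
      (X * NormedSpace.exp (t • X)) t := fun t => hasDerivAt_exp_smul_const' X t
  have hEv : ∀ (a : W) (t : ℝ), HasDerivAt (fun u : ℝ => NormedSpace.exp (u • X) a)
      (X (NormedSpace.exp (t • X) a)) t := by
    intro a t
    have := (hE t).clm_apply (hasDerivAt_const t a)
    simpa using this
  have hF : ∀ t : ℝ, HasDerivAt
      (fun u : ℝ => B (NormedSpace.exp (u • X) v) (NormedSpace.exp (u • X) w)) 0 t := by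
    intro t
    have h1 : HasDerivAt (fun u : ℝ => B (NormedSpace.exp (u • X) v))
        (B (X (NormedSpace.exp (t • X) v))) t :=
      (B.hasFDerivAt.comp_hasDerivAt t (hEv v t))
    have h2 := h1.clm_apply (hEv w t)
    have h3 : B (X (NormedSpace.exp (t • X) v)) (NormedSpace.exp (t • X) w) +
        B (NormedSpace.exp (t • X) v) (X (NormedSpace.exp (t • X) w)) = 0 := by
      rw [hB, hB]
      exact hX _ _
    rw [h3] at h2
    exact h2
  have hc := is_const_of_deriv_eq_zero (fun t => (hF t).differentiableAt) (fun t => (hF t).deriv)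
    1 0
  simp only [one_smul, zero_smul, NormedSpace.exp_zero, hB] at hc
  simpa using hc

end

end Pool.Agent.HC.DT
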